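import Pool.Agent.TSmall.Scan
import Pool.Agent.TInd.Asym

/-!
# Three integers without a short relation (helper3)
-/

set_option autoImplicit false

namespace Pool.Agent.TUpper

open Pool.Agent.TInd Pool.Agent.TSmall

/-- Integers `0 ≤ a, b ≤ c` without an integer relation of norm at most `t` are independent modulo
every `n > t c`. -/
theorem ind3_of_int {n t : ℕ} {a b c : ℤ} (ha : 0 ≤ a) (hb : 0 ≤ b) (hac : a ≤ c) (hbc : b ≤ c)
    (hn : (t : ℤ) * c < n)
    (h : ∀ x y z : ℤ, x * a + y * b + z * c = 0 → |x| + |y| + |z| ≤ (t : ℤ) →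
      x = 0 ∧ y = 0 ∧ z = 0) :
    Ind3 n t a b c := by
  intro x y z h0 hd
  by_contra hlt
  push Not at hlt
  refine h0 (h x y z ?_ hlt)
  apply Int.eq_zero_of_abs_lt_dvd hd
  have e1 : |x * a + y * b + z * c| ≤ |x * a| + |y * b| + |z * c| := abs_add_three _ _ _
  rw [abs_mul, abs_mul, abs_mul, abs_of_nonneg ha, abs_of_nonneg hb,
    abs_of_nonneg (ha.trans hac)] at e1
  have e2 : |x| * a ≤ |x| * c := mul_le_mul_of_nonneg_left hac (abs_nonneg _)
  have e3 : |y| * b ≤ |y| * c := mul_le_mul_of_nonneg_left hbc (abs_nonneg _)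
  have e4 : (|x| + |y| + |z|) * c ≤ t * c := mul_le_mul_of_nonneg_right hlt (ha.trans hac)
  linarith

/-- The integers for `t = 4 j`. -/
theorem rel4 {j x y z : ℤ} (hj : 1 ≤ j)
    (h : x * (3 * j ^ 2 + j) + y * (3 * j ^ 2 + 2 * j) + z * (3 * j ^ 2 + 3 * j + 1) = 0)
    (hl : |x| + |y| + |z| ≤ 4 * j) : x = 0 ∧ y = 0 ∧ z = 0 := by
  obtain ⟨w, hw⟩ : j ∣ z := ⟨-(3 * j * (x + y + z) + (x + 2 * y + 3 * z)), by linarith⟩
  obtain ⟨s, hs⟩ : ∃ s, s = x + y + z := ⟨_, rfl⟩
  have h1 : 3 * j * s + (x + 2 * y + 3 * z) + w = 0 := by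
    have h2 : j * (3 * j * s + (x + 2 * y + 3 * z) + w) = 0 := by
      rw [hs]
      linarith
    rcases mul_eq_zero.1 h2 with h3 | h3
    · omega
    · exact h3
  have hx : x = (3 * j + 2) * s + (j + 1) * w := by linarith
  have hy : y = -((3 * j + 1) * s + (2 * j + 1) * w) := by linarith
  have a1 := le_abs_self x
  have a2 := neg_abs_le x
  have b1 := le_abs_self y
  have b2 := neg_abs_le y
  have c1 := le_abs_self z
  have c2 := neg_abs_le z
  have a3 := abs_nonneg x
  have b3 := abs_nonneg y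
  have p1 : x + y + z ≤ 4 * j := by linarith
  have p2 : x + y - z ≤ 4 * j := by linarith
  have p3 : x - y + z ≤ 4 * j := by linarith
  have p4 : x - y - z ≤ 4 * j := by linarith
  have p5 : -x + y + z ≤ 4 * j := by linarith
  have p6 : -x + y - z ≤ 4 * j := by linarith
  have p7 : -x - y + z ≤ 4 * j := by linarith
  have p8 : -x - y - z ≤ 4 * j := by linarith
  clear a1 a2 b1 b2 c1 c2 a3 b3 hl h
  have w1 : w ≤ 4 := by nlinarith
  have w2 : -4 ≤ w := by nlinarith
  have s1 : s ≤ 2 := by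
    by_contra hlt
    push Not at hlt
    have h2 : 0 ≤ j * (s - 3) := mul_nonneg (by omega) (by omega)
    nlinarith
  have s2 : -2 ≤ s := by
    by_contra hlt
    push Not at hlt
    have h2 : 0 ≤ j * (-3 - s) := mul_nonneg (by omega) (by omega)
    nlinarith
  subst hw hx hy
  interval_cases w <;> interval_cases s <;> first | (exfalso; omega) | (refine ⟨?_, ?_, ?_⟩ <;> omega)

/-- The integers for `t = 4 m - 2`. -/
theorem rel2 {m x y z : ℤ} (hm : 1 ≤ m)
    (h : x * (3 * m ^ 2 - 3 * m + 1) + y * (3 * m ^ 2 - 1) + z * (3 * m ^ 2) = 0)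
    (hl : |x| + |y| + |z| ≤ 4 * m - 2) : x = 0 ∧ y = 0 ∧ z = 0 := by
  obtain ⟨s, hs⟩ : ∃ s, s = x + y + z := ⟨_, rfl⟩
  obtain ⟨u, hu⟩ : ∃ u, u = m * s - x := ⟨_, rfl⟩
  have hx : x = m * s - u := by linarith
  have hy : y = m * s - u + 3 * m * u := by
    rw [hu, hs]
    linarith
  have hz : z = -((2 * m - 1) * s + (3 * m - 2) * u) := by
    have : z = s - x - y := by linarith
    rw [this, hy, hx]
    ring
  have a1 := le_abs_self x
  have a2 := neg_abs_le x
  have b1 := le_abs_self y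
  have b2 := neg_abs_le y
  have c1 := le_abs_self z
  have c2 := neg_abs_le z
  have c3 := abs_nonneg z
  have p1 : x + y + z ≤ 4 * m - 2 := by linarith
  have p2 : x + y - z ≤ 4 * m - 2 := by linarith
  have p3 : x - y + z ≤ 4 * m - 2 := by linarith
  have p4 : x - y - z ≤ 4 * m - 2 := by linarith
  have p5 : -x + y + z ≤ 4 * m - 2 := by linarith
  have p6 : -x + y - z ≤ 4 * m - 2 := by linarith
  have p7 : -x - y + z ≤ 4 * m - 2 := by linarith
  have p8 : -x - y - z ≤ 4 * m - 2 := by linarith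
  have u1 : u ≤ 1 := by nlinarith
  have u2 : -1 ≤ u := by nlinarith
  clear a1 a2 b1 b2 c1 c2 c3 hl h hu
  have s1 : s ≤ 2 := by
    by_contra hlt
    push Not at hlt
    have h2 : 0 ≤ m * (s - 3) := mul_nonneg (by omega) (by omega)
    have h3 : 0 ≤ m * (u + 1) := mul_nonneg (by omega) (by omega)
    nlinarith
  have s2 : -2 ≤ s := by
    by_contra hlt
    push Not at hlt
    have h2 : 0 ≤ m * (-3 - s) := mul_nonneg (by omega) (by omega)
    have h3 : 0 ≤ m * (1 - u) := mul_nonneg (by omega) (by omega)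
    nlinarith
  subst hx hy hz
  interval_cases u <;> interval_cases s <;> first | (exfalso; omega) | (refine ⟨?_, ?_, ?_⟩ <;> omega)

end Pool.Agent.TUpper
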